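import Pool.Agent.R413.SM.L8
import Pool.Agent.R413.SQ.Cor
import Pool.Agent.R413.SQ.Low2
import Pool.Agent.R426.QB.Sq

/-!
The joint law for the twists of `X_0(49)` by the numbers of the full class.
-/

set_option autoImplicit false

open Filter Topology

namespace Pool.Agent.R413.SQ.Joint

open Finset
open Pool.Agent.R413.SQ
open Pool.Agent.Y703.CQ (c2)
open Pool.Agent.Y698.SG (n4)
open Pool.Agent.R426.QB (prod_symmDiff_nat)
open Pool.Agent.Results.MP_4a9ea6_nt.TwoPartTwistsX49 (Adm mat)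

/-- the squarefree part of `M D`, for squarefree `M` and `D` -/
def tw (M D : ℕ) : ℕ := M * D / Nat.gcd M D ^ 2

theorem ac_tw {M D : ℕ} (hM : Adm M) (hD : Adm D) :
    tw M D = ∏ p ∈ symmDiff D.primeFactors M.primeFactors, p ∧
      M * D = tw M D * Nat.gcd M D ^ 2 := by
  have h1 := prod_symmDiff_nat D.primeFactors M.primeFactors
  have h2 : Squarefree (Nat.gcd M D) := hM.1.squarefree_of_dvd (Nat.gcd_dvd_left M D)
  have h3 : ∏ p ∈ D.primeFactors ∩ M.primeFactors, p = Nat.gcd M D := by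
    rw [Finset.inter_comm, ← Nat.primeFactors_gcd hM.1.ne_zero hD.1.ne_zero,
      Nat.prod_primeFactors_of_squarefree h2]
  rw [h3, Nat.prod_primeFactors_of_squarefree hM.1, Nat.prod_primeFactors_of_squarefree hD.1,
    mul_comm D M] at h1
  have h4 : 0 < Nat.gcd M D ^ 2 := by
    have := Nat.pos_of_ne_zero h2.ne_zero
    positivity
  have h5 : tw M D = ∏ p ∈ symmDiff D.primeFactors M.primeFactors, p := by
    unfold tw
    rw [h1, Nat.mul_div_cancel _ h4]
  exact ⟨h5, by rw [h5]; exact h1⟩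

theorem pr_symm {M D : ℕ} : ∀ p ∈ symmDiff D.primeFactors M.primeFactors, p.Prime := by
  intro p hp
  rcases Finset.mem_symmDiff.1 hp with h | h
  · exact Nat.prime_of_mem_primeFactors h.1
  · exact Nat.prime_of_mem_primeFactors h.1

theorem tw_pf {M D : ℕ} (hM : Adm M) (hD : Adm D) :
    (tw M D).primeFactors = symmDiff D.primeFactors M.primeFactors := by
  rw [(ac_tw hM hD).1]
  exact Nat.primeFactors_prod pr_symm

/-- the class is stable -/
theorem adm_tw {M D : ℕ} (hM : Adm M) (hD : Adm D) : Adm (tw M D) := by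
  constructor
  · rw [(ac_tw hM hD).1]
    refine Finset.squarefree_prod_of_pairwise_isCoprime (fun p hp q hq hpq => ?_)
      fun p hp => (pr_symm p hp).squarefree
    show IsRelPrime p q
    rw [← Nat.coprime_iff_isRelPrime]
    exact (Nat.coprime_primes (pr_symm p hp) (pr_symm q hq)).mpr hpq
  · intro p hp
    rw [tw_pf hM hD] at hp
    rcases Finset.mem_symmDiff.1 hp with h | h
    · exact hD.2 p h.1
    · exact hM.2 p h.1

/-- the criterion -/
theorem det_tw {M D : ℕ} (hM : Adm M) (hD : Adm D) :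
    (mat (tw M D)).det ≠ 0 ↔ Gd n4 (symmDiff D.primeFactors M.primeFactors) := by
  rw [Cor.det_iff (adm_tw hM hD), tw_pf hM hD]

open Classical in
/-- the number of the `D ≤ X` of the class with the property `Q` -/
noncomputable def num (Q : ℕ → Prop) (X : ℕ) : ℕ := ((Icc 1 X).filter fun D => Adm D ∧ Q D).card

theorem num_eq {Q : ℕ → Prop} {R : Finset ℕ → Prop} (h : ∀ D, Adm D → (Q D ↔ R D.primeFactors))
    (X : ℕ) : num Q X = (open Classical in ((Icc 1 X).filter fun D => Squarefree D ∧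
      Cl ∅ ∅ D.primeFactors ∧ R D.primeFactors).card) := by
  classical
  unfold num
  refine congrArg Finset.card (Finset.ext fun D => ?_)
  rw [Finset.mem_filter, Finset.mem_filter]
  refine and_congr_right fun _ => ?_
  rw [← and_assoc, ← Cor.cl_iff]
  exact and_congr_right fun hF => h D hF

theorem num_true (X : ℕ) : num (fun _ => True) X = (open Classical in ((Icc 1 X).filter fun D =>
    Squarefree D ∧ Cl ∅ ∅ D.primeFactors).card) := by
  classical
  rw [num_eq (R := fun _ => True) (fun _ _ => Iff.rfl)]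
  simp only [and_true]

/-- the indices -/
abbrev Ix : Type := {M : ℕ // Adm M}

theorem fa : SM.Fa (fun _ : Ix => n4) fun M => M.1.primeFactors := by
  refine SM.fa_mask n4 (fun M N h => ?_) fun M u hu =>
    ⟨Nat.prime_of_mem_primeFactors hu, M.2.2 u hu⟩
  have h' : M.1.primeFactors = N.1.primeFactors := h
  refine Subtype.ext ?_
  rw [← Nat.prod_primeFactors_of_squarefree M.2.1, ← Nat.prod_primeFactors_of_squarefree N.2.1, h']

/-- **the joint law** -/
theorem law {T V : Finset ℕ} (hT : ∀ M ∈ T, Adm M) (hV : V ⊆ T) :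
    Tendsto (fun X : ℕ => (num (fun D => ∀ M ∈ T, ((mat (tw M D)).det ≠ 0 ↔ M ∈ V)) X : ℝ) /
      (num (fun _ => True) X : ℝ)) atTop (𝓝 (c2 ^ V.card * (1 - c2) ^ (T \ V).card)) := by
  classical
  have hVf : ∀ x ∈ V, Adm x := fun x hx => hT x (hV hx)
  have hQf : ∀ x ∈ T \ V, Adm x := fun x hx => hT x (Finset.mem_sdiff.1 hx).1
  set P : Finset Ix := V.subtype Adm with hP
  set Q : Finset Ix := (T \ V).subtype Adm with hQ
  have hd : Disjoint P Q := by
    rw [Finset.disjoint_left]
    intro z hz hz'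
    rw [hP, Finset.mem_subtype] at hz
    rw [hQ, Finset.mem_subtype] at hz'
    exact (Finset.mem_sdiff.1 hz').2 hz
  have cP : P.card = V.card := by
    rw [hP, Finset.card_subtype, Finset.filter_true_of_mem hVf]
  have cQ : Q.card = (T \ V).card := by
    rw [hQ, Finset.card_subtype, Finset.filter_true_of_mem hQf]
  have h := SM.lawD ∅ ∅ trivial fa P Q hd
  rw [cP, cQ] at h
  refine h.congr fun X => ?_
  rw [num_eq (Q := fun D => ∀ M ∈ T, ((mat (tw M D)).det ≠ 0 ↔ M ∈ V)) (R := fun S =>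
    (∀ i ∈ P, Gd n4 (symmDiff S i.1.primeFactors)) ∧
      ∀ i ∈ Q, ¬ Gd n4 (symmDiff S i.1.primeFactors))
    (fun D hD => ?_), num_true]
  · congr!
  · constructor
    · intro h2
      constructor
      · intro i hi
        rw [hP, Finset.mem_subtype] at hi
        exact (det_tw i.2 hD).1 ((h2 i.1 (hV hi)).2 hi)
      · intro i hi
        rw [hQ, Finset.mem_subtype] at hi
        obtain ⟨h3, h4⟩ := Finset.mem_sdiff.1 hi
        intro h5
        exact h4 ((h2 i.1 h3).1 ((det_tw i.2 hD).2 h5))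
    · rintro ⟨h2, h3⟩ M hM
      by_cases hMV : M ∈ V
      · exact ⟨fun _ => hMV, fun _ => (det_tw (hT M hM) hD).2
          (h2 ⟨M, hT M hM⟩ (by rw [hP, Finset.mem_subtype]; exact hMV))⟩
      · refine ⟨fun h4 => ?_, fun h4 => absurd h4 hMV⟩
        exact absurd ((det_tw (hT M hM) hD).1 h4) (h3 ⟨M, hT M hM⟩ (by
          rw [hQ, Finset.mem_subtype]
          exact Finset.mem_sdiff.2 ⟨hM, hMV⟩))

/-- the size of the class -/
theorem low : ∃ (a : ℝ) (X₀ : ℕ), 0 < a ∧ ∀ X : ℕ, X₀ ≤ X →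
    a * X / Real.sqrt (Real.log X) ≤ (num (fun _ => True) X : ℝ) := by
  classical
  obtain ⟨a, X₀, ha, h⟩ := good_ge n4
  refine ⟨a, X₀, ha, fun X hX => (h X hX).trans ?_⟩
  rw [num_true]
  have h1 : ((Icc 1 X).filter fun D => Squarefree D ∧ Cl ∅ ∅ D.primeFactors ∧
      Gd n4 D.primeFactors).card ≤ ((Icc 1 X).filter fun D => Squarefree D ∧
      Cl ∅ ∅ D.primeFactors).card := by
    refine Finset.card_le_card fun D hD => ?_
    rw [Finset.mem_filter] at hD ⊢
    exact ⟨hD.1, hD.2.1, hD.2.2.1⟩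
  exact_mod_cast h1

/-- a property of positive proportion holds for many numbers -/
theorem low_of {Q : ℕ → Prop} {θ : ℝ} (hθ : 0 < θ) (h : Tendsto (fun X : ℕ => (num Q X : ℝ) /
    (num (fun _ => True) X : ℝ)) atTop (𝓝 θ)) : ∃ (a : ℝ) (X₀ : ℕ), 0 < a ∧ ∀ X : ℕ, X₀ ≤ X →
    a * X / Real.sqrt (Real.log X) ≤ (num Q X : ℝ) := by
  obtain ⟨a, X₀, ha, h1⟩ := low
  obtain ⟨X₁, hX₁⟩ := Filter.eventually_atTop.1
    (h.eventually (lt_mem_nhds (show θ / 2 < θ by linarith)))
  refine ⟨a * (θ / 2), max (max X₀ X₁) 3, by positivity, fun X hX => ?_⟩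
  have k1 : X₀ ≤ X := le_trans (le_trans (le_max_left _ _) (le_max_left _ _)) hX
  have k2 : X₁ ≤ X := le_trans (le_trans (le_max_right _ _) (le_max_left _ _)) hX
  have k3 : 3 ≤ X := le_trans (le_max_right _ _) hX
  have a1 := h1 X k1
  have a2 := hX₁ X k2
  have hL : 0 < Real.log X := Real.log_pos (by exact_mod_cast (by omega : 1 < X))
  have hX0 : (0 : ℝ) < X := by exact_mod_cast (by omega : 0 < X)
  have hpos : 0 < a * X / Real.sqrt (Real.log X) := by positivity
  have hden : 0 < (num (fun _ => True) X : ℝ) := lt_of_lt_of_le hpos a1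
  have a3 := (lt_div_iff₀ hden).1 a2
  refine le_trans ?_ a3.le
  calc a * (θ / 2) * X / Real.sqrt (Real.log X) = θ / 2 * (a * X / Real.sqrt (Real.log X)) := by ring
    _ ≤ _ := mul_le_mul_of_nonneg_left a1 (by positivity)

end Pool.Agent.R413.SQ.Joint
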